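import Pool.Agent.H.MP_54cd88_an.B

set_option autoImplicit false

namespace Pool.Agent.Results.MP_54cd88_an.No

open Pool.Agent.H.MP_54cd88_an

theorem result : ∃ 𝓑 : BooleanSubalgebra (Set (ℕ → Bool)), Maximal PT 𝓑 ∧ ¬ Groth 𝓑 := by
  obtain ⟨𝓑, h0, h⟩ := ex_max
  exact ⟨𝓑, h, not_groth h.1 h0⟩

end Pool.Agent.Results.MP_54cd88_an.No
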